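import Mathlib

/-!
# Cubic sums of the polynomials `D_k(x)` modulo `p^2`: part (c) fails at `p = 5`
-/

set_option autoImplicit false

open Finset

namespace Pool.Agent.Results.MP_fb2c2a_nt.PartCFailsAt5

/-- `D_n(x)`. -/
def D (n : ℕ) (x : ℚ) : ℚ :=
  ∑ k ∈ range (n + 1), (n.choose k : ℚ) * ((n + k).choose k : ℚ) * x ^ k

/-- `∑_{k<p} D_k(x)^3` -/
def S (p : ℕ) (x : ℚ) : ℚ := ∑ k ∈ range p, D k x ^ 3

/-- `∑_{k<p} (-1)^k D_k(x)^3` -/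
def A (p : ℕ) (x : ℚ) : ℚ := ∑ k ∈ range p, (-1) ^ k * D k x ^ 3

/-- Congruence of rational numbers modulo `p^2`: the difference is `p^2` times a rational number
whose denominator is prime to `p`. -/
def Congr (p : ℕ) (a b : ℚ) : Prop := ∃ c : ℚ, ¬ p ∣ c.den ∧ a - b = (p : ℚ) ^ 2 * c

/-- Part (a). -/
def PartA (p : ℕ) : Prop :=
  Congr p (S p (-3)) (A p (-1 / 4)) ∧ Congr p (A p (-1 / 4)) ((jacobiSym (-2) p : ℚ) * A p (1 / 8)) ∧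
  (p % 3 = 1 → ∀ x y : ℤ, (p : ℤ) = x ^ 2 + 3 * y ^ 2 →
    Congr p (S p (-3)) ((jacobiSym (-1) p : ℚ) * (4 * x ^ 2 - 2 * p))) ∧
  (p % 3 = 2 → Congr p (S p (-3)) 0)

/-- Part (b). -/
def PartB (p : ℕ) : Prop :=
  (p % 24 = 1 ∨ p % 24 = 7 → ∀ x y : ℤ, (p : ℤ) = x ^ 2 + 6 * y ^ 2 →
    Congr p ((jacobiSym (-1) p : ℚ) * A p (1 / 2)) (4 * x ^ 2 - 2 * p)) ∧
  (p % 24 = 5 ∨ p % 24 = 11 → ∀ x y : ℤ, (p : ℤ) = 2 * x ^ 2 + 3 * y ^ 2 →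
    Congr p ((jacobiSym (-1) p : ℚ) * A p (1 / 2)) (8 * x ^ 2 - 2 * p)) ∧
  (jacobiSym (-6) p = -1 → Congr p ((jacobiSym (-1) p : ℚ) * A p (1 / 2)) 0)

/-- Part (c). -/
def PartC (p : ℕ) : Prop :=
  Congr p (S p 3) ((jacobiSym (-5) p : ℚ) * A p (-1 / 16)) ∧
  (p % 15 = 1 ∨ p % 15 = 4 → ∀ x y : ℤ, (p : ℤ) = x ^ 2 + 15 * y ^ 2 →
    Congr p (S p 3) (4 * x ^ 2 - 2 * p)) ∧
  (p % 15 = 2 ∨ p % 15 = 8 → ∀ x y : ℤ, (p : ℤ) = 3 * x ^ 2 + 5 * y ^ 2 →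
    Congr p (S p 3) (12 * x ^ 2 - 2 * p)) ∧
  (jacobiSym p 15 = -1 → Congr p (S p 3) 0)

theorem S_val : S 5 3 = 1100032340945 := by
  unfold S D
  norm_num [Finset.sum_range_succ, Nat.choose]

theorem C_val : (jacobiSym (-5) 5 : ℚ) = 0 := by
  have h : jacobiSym (-5) 5 = 0 := by
    rw [jacobiSym.eq_zero_iff_not_coprime]
    decide
  rw [h]
  norm_num

theorem fails : ¬ Congr 5 (S 5 3) ((jacobiSym (-5) 5 : ℚ) * A 5 (-1 / 16)) := by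
  rintro ⟨c, hc, h⟩
  rw [C_val, zero_mul, sub_zero, S_val] at h
  have h2 : c * c.den = c.num := Rat.mul_den_eq_num c
  have h1 : (1100032340945 : ℚ) * c.den = 25 * c.num := by
    rw [h, ← h2]; push_cast; ring
  have h3 : (1100032340945 : ℤ) * c.den = 25 * c.num := by exact_mod_cast h1
  apply hc
  have h4 : (5 : ℤ) ∣ (c.den : ℤ) := by omega
  exact_mod_cast h4

/-- The first congruence of part (c) fails for `p = 5`; so the assertion of Q1 is false. -/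
theorem result : ¬ Congr 5 (S 5 3) ((jacobiSym (-5) 5 : ℚ) * A 5 (-1 / 16)) ∧
    ¬ ∀ p : ℕ, p.Prime → 3 < p → PartA p ∧ PartB p ∧ PartC p :=
  ⟨fails, fun h => fails (h 5 (by norm_num) (by norm_num)).2.2.1⟩

end Pool.Agent.Results.MP_fb2c2a_nt.PartCFailsAt5
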